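import Pool.Agent.DelPezzo.Main

/-!
# Closed points in general position on unirational del Pezzo surfaces

Let `k` be an infinite field and `X` a unirational del Pezzo surface of degree `d` over `k` which
is geometrically a blow-up of the projective plane. Let `1 ≤ n ≤ d - 1` and let
`n = ∑ i * λ i` be a partition such that `k` has a separable extension of degree `i` whenever
`λ i > 0`. Then `X` contains a set of closed points in general position with exactly `λ i` points
of degree `i` (for `1 ≤ i ≤ 8`).

All the definitions used in the statement are in `Pool/Agent/DelPezzo/Defs.lean`.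
-/

set_option autoImplicit false

universe u

open CategoryTheory AlgebraicGeometry Limits TopologicalSpace

namespace Pool.Agent.Results.MP_bd1cc3_ag.GeneralPosition

open Pool.Agent.DelPezzo

theorem result {k : Type u} [Field k] [Infinite k] {X : Scheme.{u}} (sX : X ⟶ Spec (.of k))
    {d n : ℕ} (hX : IsDelPezzo sX d) (hun : IsUnirational sX) (hn1 : 1 ≤ n) (hn : n ≤ d - 1)
    (lam : Fin 8 → ℕ) (hlam : n = ∑ i : Fin 8, (i.1 + 1) * lam i)
    (hsep : ∀ i, 0 < lam i → ∃ (L : Type u) (_ : Field L) (_ : Algebra k L),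
      Algebra.IsSeparable k L ∧ Module.finrank k L = i.1 + 1) :
    ∃ (M : Finset X) (hM : IsClosed (M : Set X)),
      (∀ x ∈ M, IsClosed ({x} : Set X) ∧ IsSeparablePoint sX x) ∧
      (∀ i : Fin 8, (M.filter fun x => pointDegree sX x = i.1 + 1).card = lam i) ∧
      (∀ x ∈ M, 1 ≤ pointDegree sX x ∧ pointDegree sX x ≤ 8) ∧
      InGeneralPosition sX (d - n) ⟨M, hM⟩ := by
  obtain ⟨M, hM, h1, h2, h3, h4⟩ :=
    main (AlgebraicClosure k) sX hX hun (by omega : n < d) lam hlam hsep
  refine ⟨M, isClosed_finset M hM, fun x hx => ⟨hM x hx, h1 x hx⟩, h2, ?_, h4⟩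
  intro x hx
  obtain ⟨i, hi⟩ := h3 x hx
  rw [hi]
  omega

end Pool.Agent.Results.MP_bd1cc3_ag.GeneralPosition
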